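/-
Project IW (helper38, MP_658dbf_an), part FUB: mixtures of the weights A / (s + A).
-/
import Pool.Agent.L7h38.IW.Stm

open MeasureTheory Set Filter Topology Polynomial

namespace Pool.Agent.L7h34.IW

open Pool.Agent.L7h38.IW

lemma AA_nonneg (θ : ℝ) : 0 ≤ AA θ := by
  unfold AA; linarith [Real.cos_le_one θ]

lemma AA_le (θ : ℝ) : AA θ ≤ 4 := by
  unfold AA; linarith [Real.neg_one_le_cos θ]

lemma AA_cont : Continuous AA := by
  unfold AA; fun_prop

lemma AA_pos_of_ne {θ : ℝ} (h1 : -Real.pi < θ) (h2 : θ ≤ Real.pi) (h : θ ≠ 0) : 0 < AA θ := by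
  rcases (AA_nonneg θ).eq_or_lt with h0 | h0
  · exfalso
    have h3 : Real.cos θ = 1 := by unfold AA at h0; linarith
    exact h ((Real.cos_eq_one_iff_of_lt_of_lt (by linarith [Real.pi_pos])
      (by linarith [Real.pi_pos])).1 h3)
  · exact h0

theorem s_FUB : S_FUB := by
  intro g hg h μ h0 h1
  have hpi : -Real.pi ≤ Real.pi := by linarith [Real.pi_pos]
  rcases h0.eq_or_lt with rfl | h0
  · have key : Tendsto (fun n : ℕ => ∫ θ in (-Real.pi)..Real.pi,
        AA θ / (1 / ((n : ℝ) + 1) + AA θ) * g θ) atTop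
        (𝓝 (∫ θ in (-Real.pi)..Real.pi, AA θ ^ (0 : ℝ) * g θ)) := by
      apply intervalIntegral.tendsto_integral_filter_of_dominated_convergence (fun θ => |g θ|)
      · filter_upwards with n
        have hA := AA_cont.measurable
        have hgm := hg.measurable
        exact Measurable.aestronglyMeasurable (by fun_prop)
      · filter_upwards with n
        filter_upwards with θ _
        rw [norm_mul, Real.norm_eq_abs, Real.norm_eq_abs]
        have hs : (0 : ℝ) < 1 / ((n : ℝ) + 1) := by positivity
        have hA := AA_nonneg θ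
        have h2 : |AA θ / (1 / ((n : ℝ) + 1) + AA θ)| ≤ 1 := by
          rw [abs_of_nonneg (by positivity)]
          exact (div_le_one (by positivity)).2 (by linarith)
        calc _ ≤ 1 * |g θ| := by gcongr
          _ = |g θ| := one_mul _
      · exact (continuous_abs.comp hg).intervalIntegrable _ _
      · have h3 : ∀ᵐ θ : ℝ, θ ≠ 0 := by
          simp [ae_iff]
        filter_upwards [h3] with θ hθ hm
        rw [uIoc_of_le hpi] at hm
        have hA : 0 < AA θ := AA_pos_of_ne hm.1 hm.2 hθ
        rw [Real.rpow_zero]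
        apply Tendsto.mul_const
        have h4 : Tendsto (fun n : ℕ => 1 / ((n : ℝ) + 1) + AA θ) atTop (𝓝 (0 + AA θ)) :=
          tendsto_one_div_add_atTop_nhds_zero_nat.add_const _
        rw [zero_add] at h4
        have h5 := (tendsto_const_nhds (x := AA θ) (f := (atTop : Filter ℕ))).div h4 hA.ne'
        rwa [div_self hA.ne'] at h5
    exact ge_of_tendsto' key (fun n => h _ (by positivity))
  · have hmu : μ ∈ Ioo (0 : ℝ) 1 := ⟨h0, h1⟩
    have hc : 0 < ∫ t in Ioi (0 : ℝ), Real.rpowIntegrand₀₁ μ t 1 :=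
      Real.integral_rpowIntegrand₀₁_one_pos hmu
    set c := ∫ t in Ioi (0 : ℝ), Real.rpowIntegrand₀₁ μ t 1 with hcdef
    have e1 : c * ∫ θ in Ioc (-Real.pi) Real.pi, AA θ ^ μ * g θ =
        ∫ θ in Ioc (-Real.pi) Real.pi, ∫ t in Ioi (0 : ℝ),
          Real.rpowIntegrand₀₁ μ t (AA θ) * g θ := by
      rw [← integral_const_mul]
      apply integral_congr_ae
      filter_upwards with θ
      rw [integral_mul_const, Real.integral_rpowIntegrand₀₁_eq_rpow_mul_const hmu (AA_nonneg θ),
        ← hcdef]
      ring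
    have hint : Integrable (Function.uncurry fun θ t => Real.rpowIntegrand₀₁ μ t (AA θ) * g θ)
        ((volume.restrict (Ioc (-Real.pi) Real.pi)).prod (volume.restrict (Ioi (0 : ℝ)))) := by
      have i1 : Integrable (fun θ => |g θ|) (volume.restrict (Ioc (-Real.pi) Real.pi)) :=
        (continuous_abs.comp hg).integrableOn_Ioc
      have i2 : Integrable (fun t => Real.rpowIntegrand₀₁ μ t 4) (volume.restrict (Ioi (0 : ℝ))) :=
        Real.integrableOn_rpowIntegrand₀₁_Ioi hmu (by norm_num)
      have i3 := i1.mul_prod i2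
      refine i3.mono' ?_ ?_
      · apply Measurable.aestronglyMeasurable
        have hA := AA_cont.measurable
        have hgm := hg.measurable
        unfold Function.uncurry Real.rpowIntegrand₀₁
        fun_prop
      · rw [Measure.prod_restrict]
        refine (ae_restrict_iff' (measurableSet_Ioc.prod measurableSet_Ioi)).2 ?_
        filter_upwards with p hp
        have hp2 : 0 < p.2 := hp.2
        have ha := Real.rpowIntegrand₀₁_nonneg h0 hp2.le (AA_nonneg p.1)
        have hb := Real.rpowIntegrand₀₁_monotoneOn hmu hp2.le (mem_Ici.2 (AA_nonneg p.1))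
          (mem_Ici.2 (by norm_num : (0 : ℝ) ≤ 4)) (AA_le p.1)
        simp only [Function.uncurry]
        rw [norm_mul, Real.norm_eq_abs, Real.norm_eq_abs, abs_of_nonneg ha, mul_comm]
        gcongr
    have e2 : (∫ θ in Ioc (-Real.pi) Real.pi, ∫ t in Ioi (0 : ℝ),
          Real.rpowIntegrand₀₁ μ t (AA θ) * g θ) =
        ∫ t in Ioi (0 : ℝ), ∫ θ in Ioc (-Real.pi) Real.pi,
          Real.rpowIntegrand₀₁ μ t (AA θ) * g θ := integral_integral_swap hint
    have e3 : 0 ≤ ∫ t in Ioi (0 : ℝ), ∫ θ in Ioc (-Real.pi) Real.pi,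
          Real.rpowIntegrand₀₁ μ t (AA θ) * g θ := by
      apply setIntegral_nonneg measurableSet_Ioi
      intro t ht
      have ht0 : 0 < t := ht
      have h4 := h t ht0
      rw [intervalIntegral.integral_of_le hpi] at h4
      have e4 : ∫ θ in Ioc (-Real.pi) Real.pi, Real.rpowIntegrand₀₁ μ t (AA θ) * g θ =
          t ^ (μ - 1) * ∫ θ in Ioc (-Real.pi) Real.pi, AA θ / (t + AA θ) * g θ := by
        rw [← integral_const_mul]
        apply integral_congr_ae
        filter_upwards with θ
        rw [Real.rpowIntegrand₀₁_eq_pow_div hmu ht0.le (AA_nonneg θ)]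
        ring
      rw [e4]
      positivity
    rw [intervalIntegral.integral_of_le hpi]
    rw [← e2, ← e1] at e3
    exact nonneg_of_mul_nonneg_right e3 hc

end Pool.Agent.L7h34.IW
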