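/-
Project IW (helper38, MP_658dbf_an), part COS.
-/
import Pool.Agent.L7h34.IW.Fub

open MeasureTheory Set Filter Topology Polynomial

namespace Pool.Agent.L7h34.IW

open Pool.Agent.L7h38.IW

lemma AAr_cont {μ : ℝ} (h : 0 ≤ μ) : Continuous (fun θ => AA θ ^ μ) :=
  AA_cont.rpow_const (fun _ => Or.inr h)

theorem s_COS : S_COS := by
  intro μ h0
  have hpi : -Real.pi ≤ Real.pi := by linarith [Real.pi_pos]
  have hc := AAr_cont h0
  have key : ∫ θ in (-Real.pi)..Real.pi,
      (μ * AA θ ^ μ * (1 + Real.cos θ) + AA θ ^ μ * Real.cos θ) = 0 := by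
    have := MeasureTheory.integral_eq_of_hasDerivAt_off_countable
      (fun θ => AA θ ^ μ * Real.sin θ)
      (fun θ => μ * AA θ ^ μ * (1 + Real.cos θ) + AA θ ^ μ * Real.cos θ)
      (a := -Real.pi) (b := Real.pi) (s := {0}) (countable_singleton 0)
      (hc.mul Real.continuous_sin).continuousOn ?_ ?_
    · rw [this]; simp
    · intro θ hθ
      rw [min_eq_left hpi, max_eq_right hpi] at hθ
      have hA : 0 < AA θ := AA_pos_of_ne hθ.1.1 hθ.1.2.le hθ.2
      have d1 : HasDerivAt AA (2 * Real.sin θ) θ := by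
        exact (((Real.hasDerivAt_cos θ).const_mul 2).const_sub 2).congr_deriv (by ring)
      have d2 := (d1.rpow_const (p := μ) (Or.inl hA.ne')).fun_mul (Real.hasDerivAt_sin θ)
      refine d2.congr_deriv ?_
      have e1 : AA θ ^ μ = AA θ ^ (μ - 1) * AA θ := by
        rw [Real.rpow_sub_one hA.ne', div_mul_cancel₀ _ hA.ne']
      have e2 : AA θ * (1 + Real.cos θ) = 2 * Real.sin θ * Real.sin θ := by
        unfold AA
        nlinarith [Real.sin_sq_add_cos_sq θ]
      have e3 : μ * AA θ ^ μ * (1 + Real.cos θ) =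
          2 * Real.sin θ * μ * AA θ ^ (μ - 1) * Real.sin θ := by
        rw [e1]
        calc μ * (AA θ ^ (μ - 1) * AA θ) * (1 + Real.cos θ) =
            μ * AA θ ^ (μ - 1) * (AA θ * (1 + Real.cos θ)) := by ring
          _ = _ := by rw [e2]; ring
      rw [e3]
    · apply Continuous.intervalIntegrable
      have := Real.continuous_cos
      fun_prop
  have i1 : IntervalIntegrable (fun θ => AA θ ^ μ) volume (-Real.pi) Real.pi :=
    hc.intervalIntegrable _ _
  have i2 : IntervalIntegrable (fun θ => AA θ ^ μ * Real.cos θ) volume (-Real.pi) Real.pi :=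
    (hc.mul Real.continuous_cos).intervalIntegrable _ _
  have e : ∀ θ : ℝ, μ * AA θ ^ μ * (1 + Real.cos θ) + AA θ ^ μ * Real.cos θ =
      μ * AA θ ^ μ + (1 + μ) * (AA θ ^ μ * Real.cos θ) := by intro θ; ring
  simp only [e] at key
  rw [intervalIntegral.integral_add (i1.const_mul _) (i2.const_mul _),
    intervalIntegral.integral_const_mul, intervalIntegral.integral_const_mul] at key
  have h1 : (1 : ℝ) + μ ≠ 0 := by positivity
  field_simp
  linarith

end Pool.Agent.L7h34.IW
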