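/-
Project IW (helper38, MP_658dbf_an), part GAM: the integral of A^mu by the Beta function.
-/
import Pool.Agent.L7h34.IW.Cos

open MeasureTheory Set Filter Topology Polynomial

namespace Pool.Agent.L7h34.IW

open Pool.Agent.L7h38.IW

lemma beta_int (α β : ℝ) (hα : 0 < α) (hβ : 0 < β) :
    ∫ x in Ioo (0 : ℝ) 1, x ^ (α - 1) * (1 - x) ^ (β - 1) =
      Real.Gamma α * Real.Gamma β / Real.Gamma (α + β) := by
  have hb := ProbabilityTheory.beta_eq_betaIntegralReal α β hα hβ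
  have hb' : ProbabilityTheory.beta α β =
    Real.Gamma α * Real.Gamma β / Real.Gamma (α + β) := rfl
  rw [← hb', hb, Complex.betaIntegral, intervalIntegral.integral_of_le (by norm_num),
    ← integral_Ioc_eq_integral_Ioo, ← RCLike.re_to_complex, ← integral_re]
  · refine setIntegral_congr_fun measurableSet_Ioc fun x ⟨hx1, hx₂⟩ ↦ ?_
    norm_cast
    rw [← Complex.ofReal_cpow, ← Complex.ofReal_cpow, RCLike.re_to_complex,
      Complex.re_mul_ofReal, Complex.ofReal_re]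
    all_goals linarith
  · have h := Complex.betaIntegral_convergent (u := α) (v := β) (by simpa) (by simpa)
    rw [intervalIntegrable_iff_integrableOn_Ioc_of_le (by norm_num)] at h
    exact h

lemma image_half :
    (fun θ : ℝ => (1 - Real.cos θ) / 2) '' Ioo 0 Real.pi = Ioo 0 1 := by
  ext x
  constructor
  · rintro ⟨θ, ⟨h1, h2⟩, rfl⟩
    have a1 : Real.cos θ < 1 := by
      have := Real.strictAntiOn_cos (left_mem_Icc.2 Real.pi_pos.le) ⟨h1.le, h2.le⟩ h1
      rwa [Real.cos_zero] at this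
    have a2 : -1 < Real.cos θ := by
      have := Real.strictAntiOn_cos ⟨h1.le, h2.le⟩ (right_mem_Icc.2 Real.pi_pos.le) h2
      rwa [Real.cos_pi] at this
    constructor
    · simp only; linarith
    · simp only; linarith
  · rintro ⟨h1, h2⟩
    refine ⟨Real.arccos (1 - 2 * x), ⟨?_, ?_⟩, ?_⟩
    · rw [Real.arccos_pos]; linarith
    · rw [Real.arccos_lt_pi]; linarith
    · simp only
      rw [Real.cos_arccos (by linarith) (by linarith)]
      ring

lemma half_int {μ : ℝ} (h0 : 0 ≤ μ) :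
    ∫ θ in (0 : ℝ)..Real.pi, AA θ ^ μ =
      4 ^ μ * (Real.Gamma (μ + 1 / 2) * Real.Gamma (1 / 2) / Real.Gamma (μ + 1)) := by
  have hb := beta_int (μ + 1 / 2) (1 / 2) (by linarith) (by norm_num)
  have e0 : μ + 1 / 2 + 1 / 2 = μ + 1 := by ring
  rw [e0] at hb
  rw [← hb, ← image_half]
  rw [integral_image_eq_integral_abs_deriv_smul measurableSet_Ioo
    (f' := fun θ => Real.sin θ / 2)
    (fun θ _ => by
      have h := (((Real.hasDerivAt_cos θ).const_sub 1).div_const 2).congr_deriv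
        (show - -Real.sin θ / 2 = Real.sin θ / 2 by ring)
      exact h.hasDerivWithinAt)
    (fun x hx y hy hxy => by
      have hxy' : (1 - Real.cos x) / 2 = (1 - Real.cos y) / 2 := hxy
      have : Real.cos x = Real.cos y := by linarith
      exact Real.injOn_cos ⟨hx.1.le, hx.2.le⟩ ⟨hy.1.le, hy.2.le⟩ this)]
  rw [intervalIntegral.integral_of_le Real.pi_pos.le, integral_Ioc_eq_integral_Ioo,
    ← integral_const_mul]
  apply setIntegral_congr_fun measurableSet_Ioo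
  intro θ hθ
  have hs : 0 < Real.sin θ := Real.sin_pos_of_mem_Ioo hθ
  simp only [smul_eq_mul]
  rw [abs_of_pos (by positivity)]
  have hx : (1 - Real.cos θ) / 2 ∈ Ioo (0 : ℝ) 1 := by
    rw [← image_half]; exact ⟨θ, hθ, rfl⟩
  set x := (1 - Real.cos θ) / 2 with hxd
  have hA : AA θ = 4 * x := by unfold AA; rw [hxd]; ring
  have hsx : Real.sin θ / 2 = x ^ (1 / 2 : ℝ) * (1 - x) ^ (1 / 2 : ℝ) := by
    rw [← Real.mul_rpow hx.1.le (by linarith [hx.2]), ← Real.sqrt_eq_rpow]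
    symm
    rw [Real.sqrt_eq_iff_mul_self_eq (mul_nonneg hx.1.le (by linarith [hx.2])) (by positivity)]
    have h1 := Real.sin_sq_add_cos_sq θ
    rw [hxd]
    nlinarith
  have h1x : (0 : ℝ) < 1 - x := by linarith [hx.2]
  rw [hsx, hA, Real.mul_rpow (by norm_num) hx.1.le]
  have e1 : x ^ (1 / 2 : ℝ) * x ^ (μ + 1 / 2 - 1) = x ^ μ := by
    rw [← Real.rpow_add hx.1]; congr 1; ring
  have e2 : (1 - x) ^ (1 / 2 : ℝ) * (1 - x) ^ (1 / 2 - 1 : ℝ) = 1 := by
    rw [← Real.rpow_add h1x]; norm_num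
  calc (4 : ℝ) ^ μ * x ^ μ = 4 ^ μ * ((x ^ (1 / 2 : ℝ) * x ^ (μ + 1 / 2 - 1)) *
        ((1 - x) ^ (1 / 2 : ℝ) * (1 - x) ^ (1 / 2 - 1 : ℝ))) := by rw [e1, e2, mul_one]
    _ = _ := by ring

theorem s_GAM : S_GAM := by
  intro μ h0
  have hc := AAr_cont h0
  have hs : (∫ θ in (-Real.pi)..Real.pi, AA θ ^ μ) = 2 * ∫ θ in (0 : ℝ)..Real.pi, AA θ ^ μ := by
    rw [← intervalIntegral.integral_add_adjacent_intervals (b := 0)
      (hc.intervalIntegrable _ _) (hc.intervalIntegrable _ _)]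
    have h := intervalIntegral.integral_comp_neg (fun θ => AA θ ^ μ) (a := -Real.pi) (b := 0)
    rw [neg_neg, neg_zero] at h
    have e : ∀ θ : ℝ, AA (-θ) = AA θ := by intro θ; unfold AA; rw [Real.cos_neg]
    simp only [e] at h
    rw [h]; ring
  rw [hs, half_int h0]
  unfold cb
  have hd := Real.Gamma_mul_Gamma_add_half (μ + 1 / 2)
  have e0 : μ + 1 / 2 + 1 / 2 = μ + 1 := by ring
  have e1 : 2 * (μ + 1 / 2) = 2 * μ + 1 := by ring
  have e2 : 1 - (2 * μ + 1) = -(2 * μ) := by ring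
  rw [e0, e1, e2] at hd
  have hG : Real.Gamma (μ + 1) ≠ 0 := (Real.Gamma_pos_of_pos (by linarith)).ne'
  have e3 : (2 : ℝ) ^ (-(2 * μ)) = ((4 : ℝ) ^ μ)⁻¹ := by
    rw [Real.rpow_neg (by norm_num), Real.rpow_mul (by norm_num)]
    norm_num
  rw [e3] at hd
  rw [Real.Gamma_one_half_eq]
  have h4 : (4 : ℝ) ^ μ ≠ 0 := by positivity
  have e4 : Real.Gamma (μ + 1 / 2) =
      Real.Gamma (2 * μ + 1) * ((4 : ℝ) ^ μ)⁻¹ * √Real.pi / Real.Gamma (μ + 1) := by
    rw [eq_div_iff hG, hd]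
  rw [e4]
  have hp : √Real.pi * √Real.pi = Real.pi := Real.mul_self_sqrt Real.pi_pos.le
  field_simp
  rw [Real.sq_sqrt Real.pi_pos.le]

end Pool.Agent.L7h34.IW
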