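/-
Project IW (helper38, MP_658dbf_an), parts PK and TL: the Fourier coefficients of the weight
A / |1 - t z|^2 and its quadratic form.
-/
import Pool.Agent.L7h38.IW.Stm

open MeasureTheory Set Filter Topology Polynomial

namespace Pool.Agent.L7h34.IW

open Pool.Agent.L7h38.IW

/-- The denominator. -/
noncomputable def DD (t θ : ℝ) : ℝ := (1 - t) ^ 2 + t * AA θ

lemma DD_eq (t θ : ℝ) : DD t θ = 1 + t ^ 2 - 2 * t * Real.cos θ := by
  unfold DD AA; ring

lemma DD_ge {t : ℝ} (h0 : 0 < t) (θ : ℝ) : (1 - t) ^ 2 ≤ DD t θ := by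
  unfold DD
  have : 0 ≤ AA θ := by unfold AA; linarith [Real.cos_le_one θ]
  nlinarith [mul_nonneg h0.le this]

lemma DD_pos {t : ℝ} (h0 : 0 < t) (h1 : t < 1) (θ : ℝ) : 0 < DD t θ :=
  lt_of_lt_of_le (by nlinarith [mul_pos (sub_pos.2 h1) (sub_pos.2 h1)]) (DD_ge h0 θ)

lemma DD_cont (t : ℝ) : Continuous (DD t) := by
  unfold DD AA; fun_prop

/-- The cosine coefficients of `1 / DD`. -/
noncomputable def ck (t : ℝ) (k : ℕ) : ℝ :=
  ∫ θ in (-Real.pi)..Real.pi, Real.cos (k * θ) / DD t θ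

lemma ck_int {t : ℝ} (h0 : 0 < t) (h1 : t < 1) (k : ℕ) :
    IntervalIntegrable (fun θ => Real.cos (k * θ) / DD t θ) volume (-Real.pi) Real.pi := by
  apply Continuous.intervalIntegrable
  exact Continuous.div (by fun_prop) (DD_cont t) (fun θ => (DD_pos h0 h1 θ).ne')

lemma int_cos_succ (k : ℕ) :
    ∫ θ in (-Real.pi)..Real.pi, Real.cos (((k : ℝ) + 1) * θ) = 0 := by
  have hk : ((k : ℝ) + 1) ≠ 0 := by positivity
  rw [intervalIntegral.integral_comp_mul_left (fun x => Real.cos x) hk, integral_cos]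
  have h2 : Real.sin (((k : ℝ) + 1) * Real.pi) = 0 := by
    have := Real.sin_nat_mul_pi (k + 1)
    push_cast at this
    exact this
  have h3 : Real.sin (((k : ℝ) + 1) * -Real.pi) = 0 := by
    rw [mul_neg, Real.sin_neg, h2, neg_zero]
  rw [h2, h3]; simp

lemma ck_rec {t : ℝ} (h0 : 0 < t) (h1 : t < 1) (k : ℕ) :
    (1 + t ^ 2) * ck t (k + 1) - t * (ck t (k + 2) + ck t k) = 0 := by
  unfold ck
  rw [← intervalIntegral.integral_add (ck_int h0 h1 _) (ck_int h0 h1 _),
    ← intervalIntegral.integral_const_mul, ← intervalIntegral.integral_const_mul,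
    ← intervalIntegral.integral_sub ((ck_int h0 h1 _).const_mul _)
      (((ck_int h0 h1 _).add (ck_int h0 h1 _)).const_mul _), ← int_cos_succ k]
  apply intervalIntegral.integral_congr
  intro θ _
  have hD := (DD_pos h0 h1 θ).ne'
  have e1 : Real.cos (((k + 2 : ℕ) : ℝ) * θ) + Real.cos ((k : ℝ) * θ) =
      2 * Real.cos (((k : ℝ) + 1) * θ) * Real.cos θ := by
    have a1 : (((k + 2 : ℕ) : ℝ)) * θ = ((k : ℝ) + 1) * θ + θ := by push_cast; ring
    have a2 : (k : ℝ) * θ = ((k : ℝ) + 1) * θ - θ := by ring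
    rw [a1, a2, Real.cos_add, Real.cos_sub]; ring
  have e2 : (((k + 1 : ℕ) : ℝ)) * θ = ((k : ℝ) + 1) * θ := by push_cast; ring
  simp only
  rw [e2, ← add_div, e1]
  rw [mul_div_assoc', mul_div_assoc', ← sub_div, div_eq_iff hD, DD_eq]
  ring

lemma ck_zero_rel {t : ℝ} (h0 : 0 < t) (h1 : t < 1) :
    (1 + t ^ 2) * ck t 0 - 2 * t * ck t 1 = 2 * Real.pi := by
  unfold ck
  rw [← intervalIntegral.integral_const_mul, ← intervalIntegral.integral_const_mul,
    ← intervalIntegral.integral_sub ((ck_int h0 h1 _).const_mul _)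
      ((ck_int h0 h1 _).const_mul _)]
  have : ∀ θ : ℝ, (1 + t ^ 2) * (Real.cos (((0 : ℕ) : ℝ) * θ) / DD t θ) -
      2 * t * (Real.cos (((1 : ℕ) : ℝ) * θ) / DD t θ) = 1 := by
    intro θ
    have hD := (DD_pos h0 h1 θ).ne'
    rw [mul_div_assoc', mul_div_assoc', ← sub_div, div_eq_iff hD, DD_eq]
    simp
  simp only [this]
  simp
  ring

lemma ck_bound {t : ℝ} (h0 : 0 < t) (h1 : t < 1) (k : ℕ) :
    |ck t k| ≤ 2 * Real.pi / (1 - t) ^ 2 := by
  unfold ck
  have ht : (0 : ℝ) < (1 - t) ^ 2 := by nlinarith [mul_pos (sub_pos.2 h1) (sub_pos.2 h1)]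
  have := intervalIntegral.norm_integral_le_of_norm_le_const (a := -Real.pi) (b := Real.pi)
    (C := 1 / (1 - t) ^ 2) (f := fun θ => Real.cos (k * θ) / DD t θ) (by
      intro θ _
      rw [norm_div, Real.norm_eq_abs, Real.norm_eq_abs, abs_of_pos (DD_pos h0 h1 θ)]
      exact div_le_div₀ zero_le_one (Real.abs_cos_le_one _) ht (DD_ge h0 θ))
  rw [Real.norm_eq_abs] at this
  refine this.trans (le_of_eq ?_)
  rw [abs_of_pos (by linarith [Real.pi_pos])]
  ring

lemma ck_step {t : ℝ} (h0 : 0 < t) (h1 : t < 1) (k : ℕ) : ck t (k + 1) = t * ck t k := by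
  have hd : ∀ n k : ℕ, ck t (k + 1) - t * ck t k =
      t ^ n * (ck t (k + n + 1) - t * ck t (k + n)) := by
    intro n
    induction n with
    | zero => intro k; simp
    | succ n ih =>
      intro k
      rw [ih k]
      have h := ck_rec h0 h1 (k + n)
      have e : k + (n + 1) = k + n + 1 := by ring
      rw [e, pow_succ]
      have e3 : k + n + 1 + 1 = k + n + 2 := by ring
      rw [e3]
      have : ck t (k + n + 1) - t * ck t (k + n) =
          t * (ck t (k + n + 2) - t * ck t (k + n + 1)) := by linarith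
      rw [this]; ring
  have hb : ∀ n : ℕ, |ck t (k + 1) - t * ck t k| ≤
      t ^ n * (2 * (2 * Real.pi / (1 - t) ^ 2)) := by
    intro n
    rw [hd n k, abs_mul, abs_of_pos (pow_pos h0 n)]
    gcongr
    have b1 := ck_bound h0 h1 (k + n + 1)
    have b2 := ck_bound h0 h1 (k + n)
    calc |ck t (k + n + 1) - t * ck t (k + n)| ≤ |ck t (k + n + 1)| + |t * ck t (k + n)| :=
          abs_sub _ _
      _ ≤ |ck t (k + n + 1)| + |ck t (k + n)| := by
          rw [abs_mul, abs_of_pos h0]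
          nlinarith [abs_nonneg (ck t (k + n))]
      _ ≤ _ := by linarith
  have hlim : Tendsto (fun n : ℕ => t ^ n * (2 * (2 * Real.pi / (1 - t) ^ 2))) atTop (𝓝 0) := by
    have := (tendsto_pow_atTop_nhds_zero_of_lt_one h0.le h1).mul_const
      (2 * (2 * Real.pi / (1 - t) ^ 2))
    rwa [zero_mul] at this
  have h3 : |ck t (k + 1) - t * ck t k| ≤ 0 := ge_of_tendsto' hlim hb
  have h4 := abs_nonpos_iff.1 h3
  linarith

lemma ck_pow {t : ℝ} (h0 : 0 < t) (h1 : t < 1) (k : ℕ) : ck t k = t ^ k * ck t 0 := by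
  induction k with
  | zero => simp
  | succ k ih => rw [ck_step h0 h1 k, ih, pow_succ]; ring

lemma ck_zero {t : ℝ} (h0 : 0 < t) (h1 : t < 1) : ck t 0 = 2 * Real.pi / (1 - t ^ 2) := by
  have h := ck_zero_rel h0 h1
  have hs := ck_step h0 h1 0
  rw [zero_add] at hs
  rw [hs] at h
  have : (1 : ℝ) - t ^ 2 ≠ 0 := by nlinarith
  rw [eq_div_iff this]
  linarith

lemma AD_eq {t : ℝ} (h0 : 0 < t) (h1 : t < 1) (θ : ℝ) :
    AA θ / ((1 - t) ^ 2 + t * AA θ) = 1 / t - ((1 - t) ^ 2 / t) * (1 / DD t θ) := by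
  have hD := (DD_pos h0 h1 θ).ne'
  have e : (1 - t) ^ 2 + t * AA θ = DD t θ := rfl
  rw [e]
  field_simp
  unfold DD
  ring

theorem s_PK : S_PK := by
  intro t h0 h1
  have h1t : (1 : ℝ) - t ^ 2 ≠ 0 := by nlinarith
  have h1t' : (1 : ℝ) + t ≠ 0 := by positivity
  have h1t'' : (1 : ℝ) - t ≠ 0 := by linarith
  refine ⟨?_, fun k => ?_⟩
  · simp only [AD_eq h0 h1]
    have i0 := ck_int h0 h1 0
    have e0 : (fun θ : ℝ => Real.cos (((0 : ℕ) : ℝ) * θ) / DD t θ) = fun θ => 1 / DD t θ := by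
      funext θ; simp
    rw [e0] at i0
    rw [intervalIntegral.integral_sub (by simp) (i0.const_mul _),
      intervalIntegral.integral_const_mul]
    have e1 : (∫ θ in (-Real.pi)..Real.pi, 1 / DD t θ) = ck t 0 := by
      unfold ck; rw [e0]
    rw [e1, ck_zero h0 h1]
    simp only [intervalIntegral.integral_const, smul_eq_mul]
    have e2 : (1 : ℝ) - t ^ 2 = (1 - t) * (1 + t) := by ring
    rw [e2]
    field_simp
    ring
  · have e : ∀ θ : ℝ, AA θ / ((1 - t) ^ 2 + t * AA θ) * Real.cos ((k + 1) * θ) =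
        (1 / t) * Real.cos ((k + 1) * θ) -
          ((1 - t) ^ 2 / t) * (Real.cos (((k + 1 : ℕ) : ℝ) * θ) / DD t θ) := by
      intro θ
      rw [AD_eq h0 h1]
      push_cast
      ring
    simp only [e]
    rw [intervalIntegral.integral_sub, intervalIntegral.integral_const_mul,
      intervalIntegral.integral_const_mul, int_cos_succ]
    · have e1 : (∫ θ in (-Real.pi)..Real.pi, Real.cos (((k + 1 : ℕ) : ℝ) * θ) / DD t θ) =
          ck t (k + 1) := rfl
      rw [e1, ck_pow h0 h1, ck_zero h0 h1]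
      have e2 : (1 : ℝ) - t ^ 2 = (1 - t) * (1 + t) := by ring
      rw [e2, pow_succ]
      field_simp
      ring
    · apply Continuous.intervalIntegrable; fun_prop
    · exact (ck_int h0 h1 _).const_mul _

end Pool.Agent.L7h34.IW
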