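/-
Project IW (helper38, MP_658dbf_an), part TL: the quadratic form of the weight A / |1 - t z|^2
is the cost with exponential memory.
-/
import Pool.Agent.L7h34.IW.Pk

open MeasureTheory Set Filter Topology Polynomial

namespace Pool.Agent.L7h34.IW

open Pool.Agent.L7h38.IW

/-- The value of a list, read as a polynomial, at `e^{iθ}`. -/
noncomputable def lev (θ : ℝ) : List ℤ → ℂ
  | [] => 0
  | q :: l => (q : ℂ) + Complex.exp (θ * Complex.I) * lev θ l

/-- The value of a list, read as a polynomial, at `t`. -/
noncomputable def mom (t : ℝ) : List ℤ → ℝ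
  | [] => 0
  | q :: l => (q : ℝ) + t * mom t l

lemma lev_cont (l : List ℤ) : Continuous (fun θ => lev θ l) := by
  induction l with
  | nil => simp only [lev]; exact continuous_const
  | cons q l ih => simp only [lev]; fun_prop

lemma lev_range (θ : ℝ) (n : ℕ) : ∀ f : ℕ → ℤ,
    lev θ ((List.range n).map f) =
      ∑ i ∈ Finset.range n, (f i : ℂ) * Complex.exp (θ * Complex.I) ^ i := by
  induction n with
  | zero => intro f; simp [lev]
  | succ n ih =>
    intro f
    rw [List.range_succ_eq_map, List.map_cons, List.map_map]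
    simp only [lev]
    rw [ih, Finset.sum_range_succ', Finset.mul_sum, add_comm]
    congr 1
    · apply Finset.sum_congr rfl
      intro i _
      simp only [Function.comp, pow_succ]
      ring
    · simp

lemma ev_eq_lev (Q : ℤ[X]) (θ : ℝ) : ev Q θ = lev θ (cl Q) := by
  unfold cl
  rw [lev_range]
  unfold ev
  rw [Polynomial.aeval_eq_sum_range]
  apply Finset.sum_congr rfl
  intro i _
  simp

lemma cost_eq (t : ℝ) (l : List ℤ) : ∀ v : ℝ, cost t v l = cost t 0 l - v * mom t l := by
  induction l with
  | nil => intro v; simp [cost, mom]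
  | cons q l ih =>
    intro v
    simp only [cost, mom]
    rw [ih (t * v + (1 - t) * q), ih (t * 0 + (1 - t) * q)]
    ring

/-- The weight. -/
noncomputable def WW (t θ : ℝ) : ℝ := AA θ / ((1 - t) ^ 2 + t * AA θ)

lemma WW_cont {t : ℝ} (h0 : 0 < t) (h1 : t < 1) : Continuous (WW t) := by
  unfold WW
  apply Continuous.div
  · unfold AA; fun_prop
  · unfold AA; fun_prop
  · intro θ
    exact (DD_pos h0 h1 θ).ne'

lemma int_shift {t : ℝ} (h0 : 0 < t) (h1 : t < 1) (l : List ℤ) : ∀ k : ℕ,
    (∫ θ in (-Real.pi)..Real.pi,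
      WW t θ * (Complex.exp (θ * Complex.I) ^ (k + 1) * lev θ l).re) =
      - (2 * Real.pi * (1 - t) / (1 + t)) * t ^ k * mom t l := by
  induction l with
  | nil => intro k; simp [lev, mom]
  | cons q l ih =>
    intro k
    have e : ∀ θ : ℝ, WW t θ * (Complex.exp (θ * Complex.I) ^ (k + 1) * lev θ (q :: l)).re =
        q * (WW t θ * Real.cos (((k : ℝ) + 1) * θ)) +
          WW t θ * (Complex.exp (θ * Complex.I) ^ (k + 1 + 1) * lev θ l).re := by
      intro θ
      have e1 : (Complex.exp (θ * Complex.I) ^ (k + 1)).re = Real.cos (((k : ℝ) + 1) * θ) := by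
        rw [← Complex.exp_nat_mul]
        have : ((k + 1 : ℕ) : ℂ) * ((θ : ℂ) * Complex.I) =
            ((((k : ℝ) + 1) * θ : ℝ) : ℂ) * Complex.I := by push_cast; ring
        rw [this, Complex.exp_ofReal_mul_I_re]
      simp only [lev]
      have e2 : Complex.exp (θ * Complex.I) ^ (k + 1) *
          ((q : ℂ) + Complex.exp (θ * Complex.I) * lev θ l) =
          (q : ℝ) * Complex.exp (θ * Complex.I) ^ (k + 1) +
            Complex.exp (θ * Complex.I) ^ (k + 1 + 1) * lev θ l := by
        push_cast
        ring
      rw [e2, Complex.add_re, Complex.re_ofReal_mul, e1]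
      ring
    simp only [e]
    have hW := WW_cont h0 h1
    have hl := lev_cont l
    rw [intervalIntegral.integral_add, intervalIntegral.integral_const_mul, ih (k + 1)]
    · have hp := (s_PK t h0 h1).2 k
      have e3 : (∫ θ in (-Real.pi)..Real.pi, WW t θ * Real.cos (((k : ℝ) + 1) * θ)) =
          - (2 * Real.pi * (1 - t) / (1 + t)) * t ^ k := hp
      rw [e3]
      simp only [mom]
      ring
    · apply Continuous.intervalIntegrable
      fun_prop
    · apply Continuous.intervalIntegrable
      fun_prop

lemma int_sq {t : ℝ} (h0 : 0 < t) (h1 : t < 1) (l : List ℤ) :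
    (∫ θ in (-Real.pi)..Real.pi, WW t θ * ‖lev θ l‖ ^ 2) =
      4 * Real.pi / (1 + t) * cost t 0 l := by
  have h1t' : (1 : ℝ) + t ≠ 0 := by positivity
  induction l with
  | nil => simp [lev, cost]
  | cons q l ih =>
    have hW := WW_cont h0 h1
    have hl := lev_cont l
    have e : ∀ θ : ℝ, WW t θ * ‖lev θ (q :: l)‖ ^ 2 =
        (q : ℝ) ^ 2 * WW t θ + WW t θ * ‖lev θ l‖ ^ 2 +
          2 * q * (WW t θ * (Complex.exp (θ * Complex.I) ^ (0 + 1) * lev θ l).re) := by
      intro θ
      simp only [lev]
      have e1 : ‖(q : ℂ) + Complex.exp (θ * Complex.I) * lev θ l‖ ^ 2 =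
          (q : ℝ) ^ 2 + ‖lev θ l‖ ^ 2 +
            2 * q * (Complex.exp (θ * Complex.I) * lev θ l).re := by
        have h2 : ‖Complex.exp (θ * Complex.I) * lev θ l‖ = ‖lev θ l‖ := by
          rw [norm_mul, Complex.norm_exp_ofReal_mul_I, one_mul]
        rw [← h2]
        generalize Complex.exp (θ * Complex.I) * lev θ l = w
        rw [Complex.sq_norm, Complex.sq_norm, Complex.normSq_apply, Complex.normSq_apply]
        simp
        ring
      rw [e1, zero_add, pow_one]
      ring
    simp only [e]
    have i1 : IntervalIntegrable (fun θ => (q : ℝ) ^ 2 * WW t θ) volume (-Real.pi) Real.pi := by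
      apply Continuous.intervalIntegrable
      fun_prop
    have i2 : IntervalIntegrable (fun θ => WW t θ * ‖lev θ l‖ ^ 2) volume (-Real.pi) Real.pi := by
      apply Continuous.intervalIntegrable
      fun_prop
    have i3 : IntervalIntegrable (fun θ : ℝ => 2 * q *
        (WW t θ * (Complex.exp (θ * Complex.I) ^ (0 + 1) * lev θ l).re)) volume
        (-Real.pi) Real.pi := by
      apply Continuous.intervalIntegrable
      fun_prop
    rw [intervalIntegral.integral_add (i1.add i2) i3, intervalIntegral.integral_add i1 i2,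
      intervalIntegral.integral_const_mul, intervalIntegral.integral_const_mul, ih,
      int_shift h0 h1 l 0]
    have hp : (∫ θ in (-Real.pi)..Real.pi, WW t θ) = 4 * Real.pi / (1 + t) := (s_PK t h0 h1).1
    rw [hp]
    simp only [cost]
    rw [cost_eq t l (t * 0 + (1 - t) * q)]
    field_simp
    ring

theorem s_TL : S_TL := by
  intro t h0 h1 Q
  have := int_sq h0 h1 (cl Q)
  rw [← this]
  apply intervalIntegral.integral_congr
  intro θ _
  simp only
  rw [ev_eq_lev]
  rfl

end Pool.Agent.L7h34.IW
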